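import Pool.Agent.Helper14.W3.StA

/-!
# Project W3, module N4: `f(z) + f(z + 1/3) + f(z + 2/3) = 0`
-/

set_option autoImplicit false

open UpperHalfPlane CongruenceSubgroup
open scoped MatrixGroups

namespace Pool.Agent.Helper45.W3

open Pool.Agent.Helper14.CV Pool.Agent.Helper14.W3

private theorem im_W (r : ℝ) (hr : 0 < r) (z : ℂ) (hz : 0 < z.im) :
    0 < (-1 / ((r : ℂ) * z)).im := by
  have hw : 0 < ((r : ℂ) * z).im := by
    rw [Complex.im_ofReal_mul r z]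
    exact mul_pos hr hz
  have hw0 : (r : ℂ) * z ≠ 0 := by
    intro h0
    rw [h0, Complex.zero_im] at hw
    exact lt_irrefl _ hw
  have e : -1 / ((r : ℂ) * z) = -((r : ℂ) * z)⁻¹ := by ring
  rw [e, Complex.neg_im, Complex.inv_im]
  have hn : 0 < Complex.normSq ((r : ℂ) * z) := Complex.normSq_pos.2 hw0
  have : 0 < ((r : ℂ) * z).im / Complex.normSq ((r : ℂ) * z) := div_pos hw hn
  have e2 : -(-((r : ℂ) * z).im / Complex.normSq ((r : ℂ) * z)) =
      ((r : ℂ) * z).im / Complex.normSq ((r : ℂ) * z) := by ring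
  rw [e2]
  exact this

private theorem ne_of_im {z : ℂ} (hz : 0 < z.im) : z ≠ 0 := by
  intro h0
  rw [h0, Complex.zero_im] at hz
  exact lt_irrefl _ hz

private theorem core (hN2 : S3N2) (hN3 : S3N3) (m : ℕ) (hm : 1 ≤ m) (K : ℕ)
    (hK : K = 3 * 3 ^ m) (f : CuspForm (G0 K) 2)
    (hecke : ∀ p : ℕ, p.Prime → p ≠ 3 → HeckeEig f p (fc f p))
    (new : ∀ g : CuspForm (G0 (3 ^ m)) 2,
      (∀ p : ℕ, p.Prime → p ≠ 3 → HeckeEig g p (fc f p)) → g = 0)
    (hW : ∀ z : ℂ, 0 < z.im → fz f (-1 / (K * z)) = -(K * z ^ 2 * fz f z)) :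
    ∀ z : ℂ, 0 < z.im → fz f z + fz f (z + 1 / 3) + fz f (z + 2 / 3) = 0 := by
  subst hK
  have hne : NeZero (3 ^ m) := ⟨by positivity⟩
  have h2 : 3 ∣ 3 ^ m := dvd_pow_self 3 (by omega)
  obtain ⟨g, hg⟩ := hN2 (3 ^ m) hne f h2
  have hg0 : g = 0 := by
    refine new g fun p hp hp2 => ?_
    refine hN3 (3 ^ m) hne f g p _ h2 hp ?_ (hecke p hp hp2) hg
    intro hd
    rw [← pow_succ'] at hd
    exact hp2 ((Nat.prime_dvd_prime_iff_eq hp Nat.prime_three).1 (hp.dvd_of_dvd_pow hd))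
  intro z hz
  set N : ℂ := ((3 * 3 ^ m : ℕ) : ℂ) with hN
  set M : ℂ := ((3 ^ m : ℕ) : ℂ) with hM
  have hNM : N = 3 * M := by rw [hN, hM]; push_cast; ring
  have hM0 : M ≠ 0 := by
    rw [hM]
    push_cast
    exact pow_ne_zero _ three_ne_zero
  have hN0 : N ≠ 0 := by rw [hNM]; exact mul_ne_zero three_ne_zero hM0
  have hz0 : z ≠ 0 := ne_of_im hz
  have him : ∀ r : ℝ, (z + (r : ℂ)).im = z.im := by
    intro r
    rw [Complex.add_im, Complex.ofReal_im, add_zero]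
  obtain ⟨y, hy⟩ : ∃ y : ℂ, y = z + 1 / 3 := ⟨_, rfl⟩
  obtain ⟨z', hz'⟩ : ∃ z' : ℂ, z' = z + 2 / 3 := ⟨_, rfl⟩
  have hyim : 0 < y.im := by
    have := him (1 / 3)
    push_cast at this
    rw [hy, this]
    exact hz
  have hz'im : 0 < z'.im := by
    have := him (2 / 3)
    push_cast at this
    rw [hz', this]
    exact hz
  rw [← hy, ← hz']
  have hy0 : y ≠ 0 := ne_of_im hyim
  have hz'0 : z' ≠ 0 := ne_of_im hz'im
  obtain ⟨w, hw⟩ : ∃ w : ℂ, w = -1 / (N * z') := ⟨_, rfl⟩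
  have hwim : 0 < w.im := by
    have := im_W ((3 * 3 ^ m : ℕ) : ℝ) (by positivity) z' hz'im
    rw [hw, hN]
    exact_mod_cast this
  have e1 : M * w + 1 = y / z' := by
    rw [hw, hNM]
    field_simp
    rw [hz', hy]
    ring
  have e3 : 2 * M * w + 1 = z / z' := by
    rw [hw, hNM]
    field_simp
    rw [hz']
    ring
  have e2 : w / (M * w + 1) = -1 / (N * y) := by
    rw [e1, hw]
    field_simp
  have e4 : w / (2 * M * w + 1) = -1 / (N * z) := by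
    rw [e3, hw]
    field_simp
  have h1 := hg w hwim
  have h3 : fz g w = 0 := by
    rw [hg0]
    rfl
  rw [h3, e2, e4, hW z hz, hW y hyim, e1, e3] at h1
  have h1' : fz f w = -(N * z' ^ 2 * fz f z') := by
    rw [hw]
    exact hW z' hz'im
  rw [h1'] at h1
  have h5 : ((y / z') ^ 2)⁻¹ = z' ^ 2 / y ^ 2 := by
    field_simp
  have h5' : ((z / z') ^ 2)⁻¹ = z' ^ 2 / z ^ 2 := by
    field_simp
  rw [h5, h5'] at h1
  have h6 : (0 : ℂ) = -(N * z' ^ 2) * (fz f z + fz f y + fz f z') := by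
    rw [h1]
    field_simp
    ring
  rcases mul_eq_zero.1 h6.symm with h | h
  · exact absurd h (neg_ne_zero.2 (mul_ne_zero hN0 (pow_ne_zero 2 hz'0)))
  · exact h

theorem hN4 (h8 : StA8) (hN2 : S3N2) (hN3 : S3N3) : S3N4 := by
  intro n f hn hf hR z hz
  obtain ⟨m, rfl⟩ : ∃ m, n = m + 1 := ⟨n - 1, by omega⟩
  exact core hN2 hN3 m (by omega) (3 ^ (m + 1)) (pow_succ' 3 m) f hf.hecke hf.new
    (h8 (3 ^ (m + 1)) inferInstance f hR) z hz

end Pool.Agent.Helper45.W3
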